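import Pool.Agent.ASE.Stmts5
import Pool.Agent.Helper10_ASO.LAC

/-!
# Row FRI of the squad ASE: integrality for two frames
-/

open scoped BigOperators

noncomputable section

namespace Pool.Agent.PP.SE.H79

open Pool.Agent.Helper51_AWC Pool.Agent.Helper79_WRA Pool.Agent.PP Pool.Agent.PP.KF
open Pool.Agent.PP.K9 Pool.Agent.PP.K9.H97 Pool.Agent.PP.H75 Pool.Agent.PP.T3 Pool.Agent.PP.SO
open Pool.Agent.PP.SD Pool.Agent.PP.SE
open Pool.Agent.PP.SO.H10L

attribute [local instance] Ideal.Quotient.field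

/-- Row FRI. -/
theorem fri : FriStmt := by
  classical
  intro ℓ _ M _ hM V₀ G _ _ _ _ B n m P Q c d w w' hw hw' F₁₃ F₁₂ hR
  have : Fintype G := Fintype.ofFinite G
  unfold SFr
  rw [finsum_eq_sum_of_fintype, Fintype.sum_prod_type]
  have hcP : c ∈ P := hw.mem
  have hdQ : d ∈ Q := hw'.mem
  obtain ⟨Y, hY⟩ : ∃ Y : G → G → ℚ, Y = fun s t => Yg n m B.i P Q F₁₃ F₁₂ (B.i c * s) (B.i d * t) :=
    ⟨_, rfl⟩
  have hgoal : ∀ s t : G, ((∑ᶠ z : XX (B.i c * s) (B.i d * t),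
      (F₁₃ (t13 n m B.i P Q (B.i c * s) z.1.1 z.1.2.1 z.1.2.2) +
        F₁₂ (t12 n m B.i P Q z.1.1 z.1.2.1 z.1.2.2)) : ℚ) : ℂ) =
      ((Y s t : ℚ) : ℂ) := by
    intro s t
    rw [hY]
    rfl
  simp only [hgoal]
  have hYl : ∀ z ∈ B.C P, ∀ s t, Y (z * s * z⁻¹) t = Y s t := by
    intro z hz s t
    have h1 := mem_C B P z hz
    rw [hY]
    show Yg n m B.i P Q F₁₃ F₁₂ (B.i c * (z * s * z⁻¹)) (B.i d * t) = _
    have e : B.i c * (z * s * z⁻¹) = z * (B.i c * s) * z⁻¹ := by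
      calc B.i c * (z * s * z⁻¹) = (B.i c * z) * s * z⁻¹ := by group
        _ = (z * B.i c) * s * z⁻¹ := by rw [h1 c hcP]
        _ = z * (B.i c * s) * z⁻¹ := by group
    rw [e]
    exact Yg_left P Q F₁₃ F₁₂ _ _ z h1
  have hYr : ∀ z ∈ B.C Q, ∀ s t, Y s (z * t * z⁻¹) = Y s t := by
    intro z hz s t
    have h1 := mem_C B Q z hz
    rw [hY]
    show Yg n m B.i P Q F₁₃ F₁₂ (B.i c * s) (B.i d * (z * t * z⁻¹)) = _
    have e : B.i d * (z * t * z⁻¹) = z * (B.i d * t) * z⁻¹ := by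
      calc B.i d * (z * t * z⁻¹) = (B.i d * z) * t * z⁻¹ := by group
        _ = (z * B.i d) * t * z⁻¹ := by rw [h1 d hdQ]
        _ = z * (B.i d * t) * z⁻¹ := by group
    rw [e]
    exact Yg_right P Q F₁₃ F₁₂ _ _ z h1
  have hYv : ∀ s ∈ B.C P, ∀ t ∈ B.C Q, Reg ℓ s → Reg ℓ t →
      ∃ x ∈ SOR.Rl ℓ, Y s t = Nat.card P * Nat.card Q * x := by
    intro s hs t ht hrs hrt
    obtain ⟨x, hx, h⟩ := hR P Q hcP hdQ s t hrs hrt (fun p hp => (mem_C B P s hs p hp).symm)
      (fun q hq => (mem_C B Q t ht q hq).symm)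
    refine ⟨x, hx, ?_⟩
    rw [hY]
    exact h
  have hPc : (Nat.card P : ℂ) ≠ 0 := by
    have h : 0 < Nat.card P := Nat.card_pos
    exact_mod_cast h.ne'
  -- the inner sums
  have hin : ∀ s ∈ B.C P, Reg ℓ s → ∑ t, w' t * ((Y s t : ℂ) / Nat.card P) ∈ RM M := by
    intro s hs hrs
    refine Pool.Agent.PP.SO.H10L.csum (RM M) (B.C Q) (fun t => w' t * ((Y s t : ℂ) / Nat.card P)) ?_ ?_
    · intro z hz t
      show w' (z * t * z⁻¹) * ((Y s (z * t * z⁻¹) : ℂ) / Nat.card P) = _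
      rw [hw'.cls z hz t, hYr z hz s t]
    · intro t
      show (Nat.card (B.C Q) : ℂ) * (w' t * ((Y s t : ℂ) / Nat.card P)) /
          Nat.card (B.C Q ⊓ Cu t : Subgroup G) ∈ RM M
      by_cases ht : t ∈ B.C Q
      · by_cases hrt : Reg ℓ t
        · obtain ⟨x, hx, h⟩ := hYv s hs t ht hrs hrt
          have h2 := (RM M).mul_mem (hw'.int t ht) (rl_mem ℓ hM hx)
          have e : (Nat.card (B.C Q) : ℂ) * (w' t * ((Y s t : ℂ) / Nat.card P)) /
              Nat.card (B.C Q ⊓ Cu t : Subgroup G) =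
              (Nat.card Q : ℂ) * (Nat.card (B.C Q) * w' t) /
                Nat.card (B.C Q ⊓ Cu t : Subgroup G) * ((x : ℚ) : ℂ) := by
            rw [h]
            push_cast
            field_simp
          rw [e]
          exact h2
        · rw [hw'.reg t hrt, zero_mul, mul_zero, zero_div]
          exact (RM M).zero_mem
      · rw [hw'.sup t ht, zero_mul, mul_zero, zero_div]
        exact (RM M).zero_mem
  -- the outer sum
  have hs0 : ∑ s, ∑ t, w s * w' t * (Y s t : ℂ) = ∑ s, w s * ∑ t, w' t * (Y s t : ℂ) := by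
    refine Finset.sum_congr rfl fun s _ => ?_
    rw [Finset.mul_sum]
    exact Finset.sum_congr rfl fun t _ => by ring
  rw [hs0]
  refine Pool.Agent.PP.SO.H10L.csum (RM M) (B.C P) (fun s => w s * ∑ t, w' t * (Y s t : ℂ)) ?_ ?_
  · intro z hz s
    show w (z * s * z⁻¹) * ∑ t, w' t * (Y (z * s * z⁻¹) t : ℂ) = _
    rw [hw.cls z hz s]
    simp only [hYl z hz]
  · intro s
    show (Nat.card (B.C P) : ℂ) * (w s * ∑ t, w' t * (Y s t : ℂ)) /
      Nat.card (B.C P ⊓ Cu s : Subgroup G) ∈ RM M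
    by_cases hs : s ∈ B.C P
    · by_cases hrs : Reg ℓ s
      · have h2 := (RM M).mul_mem (hw.int s hs) (hin s hs hrs)
        have e0 : ∑ t, w' t * (Y s t : ℂ) =
            Nat.card P * ∑ t, w' t * ((Y s t : ℂ) / Nat.card P) := by
          rw [Finset.mul_sum]
          refine Finset.sum_congr rfl fun t _ => ?_
          field_simp
        have e : (Nat.card (B.C P) : ℂ) * (w s * ∑ t, w' t * (Y s t : ℂ)) /
            Nat.card (B.C P ⊓ Cu s : Subgroup G) =
            (Nat.card P : ℂ) * (Nat.card (B.C P) * w s) /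
              Nat.card (B.C P ⊓ Cu s : Subgroup G) *
              ∑ t, w' t * ((Y s t : ℂ) / Nat.card P) := by
          rw [e0]
          ring
        rw [e]
        exact h2
      · rw [hw.reg s hrs, zero_mul, mul_zero, zero_div]
        exact (RM M).zero_mem
    · rw [hw.sup s hs, zero_mul, mul_zero, zero_div]
      exact (RM M).zero_mem

end Pool.Agent.PP.SE.H79
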