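import Pool.Agent.ASE.Stmts3

/-!
# Squad ASE, row X3S: the sums over the characters for `X13`
-/

open scoped BigOperators

noncomputable section

namespace Pool.Agent.PP.SE.H79

open Pool.Agent.Helper51_AWC Pool.Agent.Helper79_WRA Pool.Agent.PP Pool.Agent.PP.KF
open Pool.Agent.PP.K9 Pool.Agent.PP.K9.H97 Pool.Agent.PP.H75 Pool.Agent.PP.T3 Pool.Agent.PP.SO
open Pool.Agent.PP.SD Pool.Agent.PP.SE

attribute [local instance] Ideal.Quotient.field

open Classical in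
theorem x3s (hCz : CzbStmt) : X3sStmt := by
  intro ℓ _ M _ hM h2 V₀ G _ _ _ _ E₀ hF B hB D hD W hW c
  have hc := hCz ℓ M hM h2 V₀ G E₀ hF B hB W
  obtain ⟨-, -, -, -, -, -, hnu, hfin⟩ := hc
  have d2 := hD.d2 W hW
  have d3 := hD.d3 W hW
  have d4 := hD.d4 W hW
  have d6 := hD.d6 W hW
  haveI : Fintype (MulAut V₀) := Fintype.ofFinite _
  haveI : Fintype (St E₀ W) := Fintype.ofFinite _
  set S : Finset (G → ℂ) := hfin.toFinset with hS
  have hSm : ∀ χ, χ ∈ S ↔ χ ∈ Ch B W := fun χ => hfin.mem_toFinset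
  have hconv : ∀ f : (G → ℂ) → ℂ, ∑ᶠ χ ∈ Ch B W, f χ = ∑ χ ∈ S, f χ := fun f =>
    finsum_mem_eq_finite_toFinset_sum f hfin
  -- the key rewriting
  have key : ∀ (g : (G → ℂ) → ℂ) (x : V₀),
      ∑ χ ∈ S, cv (fm ℓ E₀ B D W c) χ * (D.D W χ x * g χ) =
        ((ux D.U W c : ℚ) : ℂ) * ∑ τ : St E₀ W, ∑ χ ∈ S,
          D.D W χ (x * (τ : MulAut V₀) c) * g χ := by
    intro g x
    have h1 : ∀ χ ∈ S, cv (fm ℓ E₀ B D W c) χ * (D.D W χ x * g χ) =
        ((ux D.U W c : ℚ) : ℂ) * ∑ τ : St E₀ W, D.D W χ (x * (τ : MulAut V₀) c) * g χ := by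
      intro χ hχ
      have := d3 χ ((hSm χ).1 hχ) c x
      rw [← mul_assoc, this, finsum_eq_sum_of_fintype, mul_assoc, Finset.sum_mul]
    rw [Finset.sum_congr rfl h1, ← Finset.mul_sum, Finset.sum_comm]
  refine ⟨?_, ?_, ?_⟩
  · intro y y'
    rw [hconv, key (fun χ => starRingEnd ℂ (D.D W χ y')) y]
    have h2' : ∀ τ : St E₀ W, ∑ χ ∈ S, D.D W χ (y * (τ : MulAut V₀) c) *
        starRingEnd ℂ (D.D W χ y') = (ℓ : ℂ) ^ 2 *
          ({τ' : St E₀ W | y' = (τ' : MulAut V₀) (y * (τ : MulAut V₀) c)}.ncard : ℂ) := by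
      intro τ
      rw [← hconv (fun χ => D.D W χ (y * (τ : MulAut V₀) c) * starRingEnd ℂ (D.D W χ y')), d4]
      have hcard : {τ' : MulAut V₀ | τ' ∈ St E₀ W ∧ τ' (y * (τ : MulAut V₀) c) = y'}.ncard =
          {τ' : St E₀ W | y' = (τ' : MulAut V₀) (y * (τ : MulAut V₀) c)}.ncard := by
        rw [← Set.ncard_image_of_injective
          {τ' : St E₀ W | y' = (τ' : MulAut V₀) (y * (τ : MulAut V₀) c)} Subtype.val_injective]
        apply congrArg Set.ncard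
        ext τ'
        constructor
        · rintro ⟨ha, hb⟩
          exact ⟨⟨τ', ha⟩, hb.symm, rfl⟩
        · rintro ⟨τ'', hb, rfl⟩
          exact ⟨τ''.2, (show y' = (τ'' : MulAut V₀) (y * (τ : MulAut V₀) c) from hb).symm⟩
      rw [hcard]
    rw [Finset.sum_congr rfl (fun τ _ => h2' τ), ← Finset.mul_sum, ← mul_assoc]
    congr 1
    -- count the pairs
    have hcnt : {w : St E₀ W × St E₀ W |
        y' = (w.2 : MulAut V₀) (y * (w.1 : MulAut V₀) c)}.ncard =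
        ∑ τ : St E₀ W, {τ' : St E₀ W | y' = (τ' : MulAut V₀) (y * (τ : MulAut V₀) c)}.ncard := by
      have e : ({w : St E₀ W × St E₀ W | y' = (w.2 : MulAut V₀) (y * (w.1 : MulAut V₀) c)} :
          Set (St E₀ W × St E₀ W)) = ((Finset.univ.filter (fun w : St E₀ W × St E₀ W =>
            y' = (w.2 : MulAut V₀) (y * (w.1 : MulAut V₀) c)) : Finset (St E₀ W × St E₀ W)) :
              Set (St E₀ W × St E₀ W)) := by
        ext w; simp
      rw [e, Set.ncard_coe_finset, Finset.card_filter, Fintype.sum_prod_type]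
      refine Finset.sum_congr rfl fun τ _ => ?_
      have e' : ({τ' : St E₀ W | y' = (τ' : MulAut V₀) (y * (τ : MulAut V₀) c)} :
          Set (St E₀ W)) = ((Finset.univ.filter (fun τ' : St E₀ W =>
            y' = (τ' : MulAut V₀) (y * (τ : MulAut V₀) c)) : Finset (St E₀ W)) :
              Set (St E₀ W)) := by
        ext w; simp
      rw [e', Set.ncard_coe_finset, Finset.card_filter]
    rw [hcnt, Nat.cast_sum]
  · intro ψ hψ z hz y
    rw [hconv, key (fun χ => starRingEnd ℂ (nu B χ z) * D.R W χ ψ) y]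
    have h0 : ∀ τ : St E₀ W, ∑ χ ∈ S, D.D W χ (y * (τ : MulAut V₀) c) *
        (starRingEnd ℂ (nu B χ z) * D.R W χ ψ) = 0 := by
      intro τ
      have h1 : ∀ χ ∈ S, D.D W χ (y * (τ : MulAut V₀) c) *
          (starRingEnd ℂ (nu B χ z) * D.R W χ ψ) =
            D.D W χ (z⁻¹ * (y * (τ : MulAut V₀) c)) * D.R W χ ψ := by
        intro χ hχ
        have hχ' := (hSm χ).1 hχ
        rw [((hnu χ hχ').2.2.1 z hz).1, (d2 χ hχ').2.2 z⁻¹ (W.inv_mem hz)]
        ring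
      rw [Finset.sum_congr rfl h1, ← hconv (fun χ =>
        D.D W χ (z⁻¹ * (y * (τ : MulAut V₀) c)) * D.R W χ ψ)]
      exact (d6 ψ hψ).1 _
    rw [Finset.sum_eq_zero (fun τ _ => h0 τ), mul_zero]
  · intro ψ hψ z hz y
    have hrw : ∀ χ ∈ S, cv (fm ℓ E₀ B D W c) χ *
        (starRingEnd ℂ (D.D W χ y) * (nu B χ z * D.R W χ ψ)) =
        cv (fm ℓ E₀ B D W c) χ * (D.D W χ y⁻¹ * (nu B χ z * D.R W χ ψ)) := by
      intro χ hχ
      rw [(d2 χ ((hSm χ).1 hχ)).2.1 y]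
    rw [hconv, Finset.sum_congr rfl hrw, key (fun χ => nu B χ z * D.R W χ ψ) y⁻¹]
    have h0 : ∀ τ : St E₀ W, ∑ χ ∈ S, D.D W χ (y⁻¹ * (τ : MulAut V₀) c) *
        (nu B χ z * D.R W χ ψ) = 0 := by
      intro τ
      have h1 : ∀ χ ∈ S, D.D W χ (y⁻¹ * (τ : MulAut V₀) c) *
          (nu B χ z * D.R W χ ψ) =
            D.D W χ (z * (y⁻¹ * (τ : MulAut V₀) c)) * D.R W χ ψ := by
        intro χ hχ
        have hχ' := (hSm χ).1 hχ
        rw [(d2 χ hχ').2.2 z hz]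
        ring
      rw [Finset.sum_congr rfl h1, ← hconv (fun χ =>
        D.D W χ (z * (y⁻¹ * (τ : MulAut V₀) c)) * D.R W χ ψ)]
      exact (d6 ψ hψ).1 _
    rw [Finset.sum_eq_zero (fun τ _ => h0 τ), mul_zero]

end Pool.Agent.PP.SE.H79
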